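import Pool.Agent.Y660.GL.Top1
import Pool.Agent.W356.SD.C1

/-!
GD2 project (helper671), task GTOP (helper660), step 1: few heights with zeros near, and the
theorem.
-/

set_option autoImplicit false

namespace Pool.Agent.Y660.GL

open Complex Filter Topology MeasureTheory Set
open Pool.Agent.Y671.GL
open Pool.Agent.H24R2.DZ (SSq)

/-- Shifting the line of integration variable. -/
theorem shift_bound (g : ℝ → ℝ) (T y M : ℝ) (hT : 2 ≤ T) (hy : |y| ≤ T / 4)
    (hg : Continuous g) (hg0 : ∀ t, 0 ≤ g t)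
    (hM : ∫ t in (T / 4)..(4 * T), g t ≤ M) :
    ∫⁻ t in Icc (T / 2) (3 * T), ‖g (t + y)‖ₑ ≤ ENNReal.ofReal M := by
  have hy1 := (abs_le.mp hy).1
  have hy2 := (abs_le.mp hy).2
  have h1 : ∫⁻ t in Icc (T / 2) (3 * T), ‖g (t + y)‖ₑ =
      ∫⁻ t in Icc (T / 2 + y) (3 * T + y), ‖g t‖ₑ := by
    have hpre : Icc (T / 2) (3 * T) = (fun t => t + y) ⁻¹' Icc (T / 2 + y) (3 * T + y) := by
      ext t; simp
    rw [hpre]
    exact (measurePreserving_add_right volume y).setLIntegral_comp_preimage_emb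
      (measurableEmbedding_addRight y) (fun t => ‖g t‖ₑ) _
  rw [h1]
  calc ∫⁻ t in Icc (T / 2 + y) (3 * T + y), ‖g t‖ₑ ≤ ∫⁻ t in Icc (T / 4) (4 * T), ‖g t‖ₑ := by
        apply lintegral_mono_set
        apply Icc_subset_Icc <;> linarith
    _ = ENNReal.ofReal (∫ t in (T / 4)..(4 * T), g t) := by
        rw [intervalIntegral.integral_of_le (by linarith), ← integral_Icc_eq_integral_Ioc,
          ofReal_integral_eq_lintegral_ofReal (hg.continuousOn.integrableOn_compact isCompact_Icc)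
            (Eventually.of_forall hg0)]
        refine lintegral_congr fun t => ?_
        rw [← ofReal_norm, Real.norm_of_nonneg (hg0 t)]
    _ ≤ ENNReal.ofReal M := ENNReal.ofReal_le_ofReal hM

/-- from the integral over a rectangle to a point -/
theorem sq_le {C : ℝ} (hC : 0 < C)
    (hS : ∀ (g : ℂ → ℂ) (x0 y0 ρ : ℝ), 0 < ρ →
      (∀ z : ℂ, |z.re - x0| ≤ ρ → |z.im - y0| ≤ ρ → DifferentiableAt ℂ g z) →
      ‖g (x0 + y0 * I)‖ ^ 2 ≤ C / ρ ^ 2 *
        ∫ x in (x0 - ρ)..(x0 + ρ), ∫ y in (y0 - ρ)..(y0 + ρ), ‖g (x + y * I)‖ ^ 2)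
    (g : ℂ → ℂ) (hg : Differentiable ℂ g) (x1 x2 R t e : ℝ) (he : 0 < e) (s : ℂ)
    (h1 : x1 + e ≤ s.re) (h2 : s.re ≤ x2 - e) (h3 : |s.im - t| ≤ R - e) :
    ‖g s‖ ^ 2 ≤ C / e ^ 2 * ∫ x in x1..x2, ∫ y in (-R)..R, ‖g (x + (t + y) * I)‖ ^ 2 := by
  have h3' := abs_le.1 h3
  have h := hS g s.re s.im e he (fun z _ _ => hg z)
  rw [Complex.re_add_im] at h
  refine h.trans ?_
  apply mul_le_mul_of_nonneg_left _ (by positivity)
  have hcont : Continuous (fun p : ℝ × ℝ => ‖g (p.1 + p.2 * I)‖ ^ 2) := by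
    have := hg.continuous
    fun_prop
  have hin : ∀ x : ℝ, ∫ y in (-R)..R, ‖g (x + (t + y) * I)‖ ^ 2 =
      ∫ y in (t - R)..(t + R), ‖g (x + y * I)‖ ^ 2 := by
    intro x
    have := intervalIntegral.integral_comp_add_left
      (f := fun y : ℝ => ‖g ((x : ℂ) + (y : ℂ) * I)‖ ^ 2) (a := -R) (b := R) t
    simp only [ofReal_add] at this
    rw [this]
    congr 1
  simp_rw [hin]
  have hcy : ∀ x : ℝ, Continuous (fun y : ℝ => ‖g ((x : ℂ) + (y : ℂ) * I)‖ ^ 2) := by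
    intro x
    have := hg.continuous
    fun_prop
  have hcx : ∀ a b : ℝ, Continuous (fun x : ℝ => ∫ y in a..b, ‖g ((x : ℂ) + (y : ℂ) * I)‖ ^ 2) := by
    intro a b
    apply intervalIntegral.continuous_parametric_intervalIntegral_of_continuous'
    exact hcont
  have e1 : ∫ x in (s.re - e)..(s.re + e), ∫ y in (s.im - e)..(s.im + e), ‖g (x + y * I)‖ ^ 2 ≤
      ∫ x in (s.re - e)..(s.re + e), ∫ y in (t - R)..(t + R), ‖g (x + y * I)‖ ^ 2 := by
    apply intervalIntegral.integral_mono_on (by linarith) ((hcx _ _).intervalIntegrable _ _)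
      ((hcx _ _).intervalIntegrable _ _)
    intro x _
    apply intervalIntegral.integral_mono_interval (by linarith) (by linarith) (by linarith)
      (Eventually.of_forall fun y => by positivity) ((hcy x).intervalIntegrable _ _)
  refine e1.trans ?_
  apply intervalIntegral.integral_mono_interval (by linarith) (by linarith) (by linarith)
    (Eventually.of_forall fun x => ?_) ((hcx _ _).intervalIntegrable _ _)
  apply intervalIntegral.integral_nonneg (by linarith)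
  intro y _
  positivity

/-- few heights with zeros near -/
theorem zf_most (h : SSq) {Z : ℂ → ℂ} {M : ℝ → ℝ → ℂ → ℂ} (hZ : Differentiable ℂ Z)
    (hM : ∀ θ T : ℝ, Differentiable ℂ (M θ T)) (hMV : MVa Z M) (R e : ℝ) (hR : 1 ≤ R)
    (he : 0 < e) (he1 : e ≤ 1 / 8) : ∃ c C T0 : ℝ, 0 < c ∧ 0 < C ∧ 2 ≤ T0 ∧ ∀ T : ℝ, T0 ≤ T →
      volume {t : ℝ | T / 2 ≤ t ∧ t ≤ 3 * T ∧ ¬ (∀ s : ℂ, 1 / 2 + 2 * e ≤ s.re → s.re ≤ 5 / 4 →
        |s.im - t| ≤ R → Z s ≠ 0)} ≤ ENNReal.ofReal (C * T ^ (1 - c)) := by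
  obtain ⟨C, hC, hS⟩ := h
  obtain ⟨θ, hθ0, hθ1, hMV⟩ := hMV
  obtain ⟨C1, T1, hC1, hT1, hMV⟩ := hMV θ hθ0 le_rfl
  obtain ⟨lam, hlam⟩ : ∃ lam : ℝ, lam = e ^ 2 / (4 * C) := ⟨_, rfl⟩
  have hlam0 : 0 < lam := by rw [hlam]; positivity
  refine ⟨θ * e, (2 * (R + 1)) * C1 / lam, max T1 (4 * (R + 1)), by positivity, by positivity,
    hT1.trans (le_max_left _ _), ?_⟩
  intro T hT
  have hTT1 : T1 ≤ T := (le_max_left _ _).trans hT
  have hTR : 4 * (R + 1) ≤ T := (le_max_right _ _).trans hT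
  have hT0 : 0 < T := by linarith
  have hT2 : 2 ≤ T := hT1.trans hTT1
  obtain ⟨MM, hMM⟩ : ∃ MM : ℝ, MM = C1 * T * Real.exp (-(θ * e * Real.log T)) := ⟨_, rfl⟩
  have hMM0 : 0 ≤ MM := by rw [hMM]; positivity
  have hgc : Continuous (fun s : ℂ => Z s * M θ T s - 1) := by
    have a1 := hZ.continuous
    have a2 := (hM θ T).continuous
    fun_prop
  have hG : Measurable fun p : ℝ × ℝ × ℝ =>
      ‖Z ((p.1 : ℂ) + ((p.2.2 : ℂ) + (p.2.1 : ℂ)) * I) *
        M θ T ((p.1 : ℂ) + ((p.2.2 : ℂ) + (p.2.1 : ℂ)) * I) - 1‖ ^ 2 := by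
    apply Continuous.measurable
    have a1 := hZ.continuous
    have a2 := (hM θ T).continuous
    fun_prop
  have hmk := Pool.Agent.W356.SD.markov3 (fun x y t => ‖Z ((x : ℂ) + ((t : ℂ) + (y : ℂ)) * I) *
    M θ T ((x : ℂ) + ((t : ℂ) + (y : ℂ)) * I) - 1‖ ^ 2) hG (1 / 2 + e) (3 / 2) (R + 1) (T / 2)
    (3 * T) MM lam (by linarith) (by linarith) hMM0 hlam0 (by
      intro x hx y hy
      rw [mem_Ioc] at hx hy
      have hy' : |y| ≤ T / 4 := by rw [abs_le]; constructor <;> linarith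
      have := shift_bound (fun t : ℝ => ‖Z ((x : ℂ) + (t : ℂ) * I) * M θ T ((x : ℂ) + (t : ℂ) * I) - 1‖ ^ 2)
        T y MM hT2 hy' (by
          have a1 := hZ.continuous
          have a2 := (hM θ T).continuous
          fun_prop) (fun t => by positivity) (by
          refine (hMV T x hTT1 (by linarith) (by linarith)).trans ?_
          rw [hMM]
          apply mul_le_mul_of_nonneg_left _ (by positivity)
          rw [Real.exp_le_exp]
          have hlogT : 0 ≤ Real.log T := Real.log_nonneg (by linarith)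
          have : θ * e * Real.log T ≤ θ * (x - 1 / 2) * Real.log T := by
            apply mul_le_mul_of_nonneg_right _ hlogT
            apply mul_le_mul_of_nonneg_left _ hθ0.le
            linarith
          linarith)
      simp only [ofReal_add] at this
      exact this)
  refine (measure_mono ?_).trans (hmk.trans (ENNReal.ofReal_le_ofReal ?_))
  · rintro t ⟨ht1, ht2, hn⟩
    refine ⟨ht1, ht2, ?_⟩
    by_contra hcon
    apply hn
    intro s hs1 hs2 hs3 hZs
    have h1 := sq_le hC hS (fun s : ℂ => Z s * M θ T s - 1)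
      ((hZ.mul (hM θ T)).sub_const 1) (1 / 2 + e) (3 / 2) (R + 1) t e he s (by linarith)
      (by linarith) (by linarith)
    simp only [hZs, zero_mul, zero_sub, norm_neg, norm_one, one_pow] at h1
    have h2 : C / e ^ 2 * ∫ x in (1 / 2 + e)..(3 / 2), ∫ y in (-(R + 1))..(R + 1),
        ‖Z ((x : ℂ) + ((t : ℂ) + (y : ℂ)) * I) *
        M θ T ((x : ℂ) + ((t : ℂ) + (y : ℂ)) * I) - 1‖ ^ 2 ≤ C / e ^ 2 * lam :=
      mul_le_mul_of_nonneg_left (not_lt.1 hcon) (by positivity)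
    have h3 : C / e ^ 2 * lam = 1 / 4 := by
      rw [hlam]
      field_simp
    linarith
  · rw [hMM]
    have e1 : C1 * T * Real.exp (-(θ * e * Real.log T)) = C1 * T ^ (1 - θ * e) := by
      rw [Real.rpow_sub hT0, Real.rpow_one, Real.exp_neg, Real.rpow_def_of_pos hT0, mul_comm (Real.log T)]
      field_simp
    rw [e1]
    have hp : 0 < T ^ (1 - θ * e) := Real.rpow_pos_of_pos hT0 _
    have e2 : (3 / 2 - (1 / 2 + e)) * (2 * (R + 1)) * (C1 * T ^ (1 - θ * e)) / lam ≤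
        1 * (2 * (R + 1)) * (C1 * T ^ (1 - θ * e)) / lam := by
      gcongr
      linarith
    refine e2.trans (le_of_eq ?_)
    ring

/-- **GTOP** -/
theorem gtop (h : SSq) : S_GTOP := by
  intro κ H X Z M hC hM hMV R ε0 η hR hε0 hη
  obtain ⟨e, hedef⟩ : ∃ e : ℝ, e = min (ε0 / 3) (1 / 8) := ⟨_, rfl⟩
  have he : 0 < e := by rw [hedef]; exact lt_min (by linarith) (by norm_num)
  have he1 : e ≤ 1 / 8 := by rw [hedef]; exact min_le_right _ _
  have he2 : 3 * e ≤ ε0 := by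
    have : e ≤ ε0 / 3 := by rw [hedef]; exact min_le_left _ _
    linarith
  obtain ⟨T1, hT1, hfar⟩ := far_of_zf hC R ε0 η e hR he he1 he2 hη
  obtain ⟨c, C, T2, hc, hC0, hT2, hz⟩ := zf_most h hC.diffZ hM hMV (R + 20) e (by linarith) he he1
  obtain ⟨c1, K1, hc1, -, hrgt⟩ := hC.rgt (1 / 5) (by norm_num)
  refine ⟨c, C, max (2 * T1) T2, hc, hC0, hT2.trans (le_max_right _ _), ?_⟩
  intro T hT
  have g1 : 2 * T1 ≤ T := (le_max_left _ _).trans hT
  have g2 : T2 ≤ T := (le_max_right _ _).trans hT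
  refine (measure_mono ?_).trans (hz T g2)
  rintro t ⟨ht1, ht2, hn⟩
  refine ⟨ht1, ht2, fun hno => hn ?_⟩
  apply hfar t (by linarith)
  intro s hs1 hs2
  by_cases h5 : s.re ≤ 5 / 4
  · exact hno s hs1 h5 hs2
  · push Not at h5
    obtain ⟨b1, -, -⟩ := hrgt s (by linarith)
    intro h0
    rw [h0, norm_zero] at b1
    linarith

end Pool.Agent.Y660.GL

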