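import Pool.Agent.Y671.GL.Spec2
import Pool.Agent.H986R2.K4.SAB

/-!
GD2 project (helper671), task GTOP (helper660), step 2: heights without zeros near.
-/

set_option autoImplicit false

namespace Pool.Agent.Y660.GL

open Complex Filter Topology MeasureTheory Set
open Pool.Agent.Y671.GL

/-- the logarithmic derivative of `X` -/
theorem ld_X {κ : ℝ} {H X Z : ℂ → ℂ} (hC : CF κ H X Z) {w : ℂ} (hw : 0 < w.im)
    (h1 : DifferentiableAt ℂ H w) (h2 : H w ≠ 0) (h3 : Z (1 / 2 + w) ≠ 0) :
    X w ≠ 0 ∧ logDeriv X w = logDeriv H w + logDeriv Z (1 / 2 + w) := by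
  have e1 : X w = H w * Z (1 / 2 + w) := hC.eq w hw
  have hd : DifferentiableAt ℂ Z (1 / 2 + w) := hC.diffZ _
  have hd2 : DifferentiableAt ℂ (fun v : ℂ => Z (1 / 2 + v)) w :=
    hd.comp w ((differentiableAt_const _).add differentiableAt_id)
  refine ⟨by rw [e1]; exact mul_ne_zero h2 h3, ?_⟩
  have hev : X =ᶠ[𝓝 w] fun v => H v * Z (1 / 2 + v) := by
    have : ∀ᶠ v : ℂ in 𝓝 w, 0 < v.im := (isOpen_lt continuous_const continuous_im).mem_nhds hw
    filter_upwards [this] with v hv
    exact hC.eq v hv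
  have e2 : logDeriv X w = logDeriv (fun v => H v * Z (1 / 2 + v)) w := by
    rw [logDeriv_apply, logDeriv_apply, hev.deriv_eq, hev.eq_of_nhds]
  rw [e2, logDeriv_mul (f := H) (g := fun v => Z (1 / 2 + v)) w h2 h3 h1 hd2]
  congr 1
  rw [logDeriv_apply, logDeriv_apply, deriv_comp_const_add]

/-- no zeros nearby implies `FarL` -/
theorem far_of_zf {κ : ℝ} {H X Z : ℂ → ℂ} (hC : CF κ H X Z) (R ε0 η e : ℝ) (hR : 1 ≤ R)
    (he : 0 < e) (he1 : e ≤ 1 / 8) (he2 : 3 * e ≤ ε0) (hη : 0 < η) :
    ∃ T0 : ℝ, 2 ≤ T0 ∧ ∀ t : ℝ, T0 ≤ t →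
      (∀ s : ℂ, 1 / 2 + 2 * e ≤ s.re → |s.im - t| ≤ R + 20 → Z s ≠ 0) → FarL κ X R ε0 η t := by
  obtain ⟨K, T1, hK, hT1, hgro⟩ := hC.gro (R + 30) (by linarith)
  obtain ⟨ε1, hε1, hS⟩ := Pool.Agent.H986R2.K4.sab e (η / 4) K he (by linarith) (by linarith) hK
  obtain ⟨c1, K1, hc1, hK1, hrgt⟩ := hC.rgt 1 one_pos
  obtain ⟨K2, T2, hK2, hT2, hgam⟩ := hC.gam R hR
  have hlog := Real.tendsto_log_atTop
  have l1 : Tendsto (fun t : ℝ => ε1 * Real.log t) atTop atTop := hlog.const_mul_atTop hε1
  have l2 : Tendsto (fun t : ℝ => η / 4 * Real.log t) atTop atTop :=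
    hlog.const_mul_atTop (by linarith)
  obtain ⟨T3, hT3⟩ := eventually_atTop.1 ((l1.eventually_ge_atTop (-Real.log c1)).and
    ((l1.eventually_ge_atTop (Real.log K1)).and ((l2.eventually_ge_atTop K1).and
    ((l2.eventually_ge_atTop K2).and (hlog.eventually_ge_atTop 1)))))
  refine ⟨max (max T1 T2) (max T3 (R + 1)), hT1.trans ((le_max_left _ _).trans (le_max_left _ _)),
    ?_⟩
  intro t ht hno z hz1 hz2
  have g1 : T1 ≤ t := ((le_max_left _ _).trans (le_max_left _ _)).trans ht
  have g2 : T2 ≤ t := ((le_max_right _ _).trans (le_max_left _ _)).trans ht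
  have g3 : T3 ≤ t := ((le_max_left _ _).trans (le_max_right _ _)).trans ht
  have g4 : R + 1 ≤ t := ((le_max_right _ _).trans (le_max_right _ _)).trans ht
  obtain ⟨a1, a2, a3, a4, a5⟩ := hT3 t g3
  have ht0 : 0 < t := by linarith
  have hzim : |z.im| ≤ R := (Complex.abs_im_le_norm z).trans hz2
  have hzim' := abs_le.1 hzim
  obtain ⟨s, hs⟩ : ∃ s : ℂ, s = 1 / 2 + (I * t + z) := ⟨_, rfl⟩
  have hsre : s.re = 1 / 2 + z.re := by simp [hs]
  have hsim : s.im = t + z.im := by simp [hs]
  have hZs : Z s ≠ 0 := hno s (by rw [hsre]; linarith) (by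
    rw [hsim, add_sub_cancel_left]; linarith)
  have hld : ‖logDeriv Z s‖ ≤ η / 4 * Real.log t := by
    by_cases hbig : z.re ≤ 2 * e + 3
    · obtain ⟨c, hc⟩ : ∃ c : ℂ, c = ((1 / 2 + 2 * e : ℝ) : ℂ) + (s.im : ℂ) * I := ⟨_, rfl⟩
      have hcre : ∀ u : ℂ, (c + u).re = 1 / 2 + 2 * e + u.re := by
        intro u
        simp [hc]
      have hcim : ∀ u : ℂ, (c + u).im = s.im + u.im := by
        intro u
        simp [hc]
      have hsc : c + ((z.re - 2 * e : ℝ) : ℂ) = s := by
        apply Complex.ext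
        · rw [hcre, Complex.ofReal_re, hsre]
          ring
        · rw [hcim, Complex.ofReal_im]
          ring
      have P1 : ∀ u : ℂ, 0 < u.re → u.re ≤ 10 → |u.im| ≤ 10 →
          DifferentiableAt ℂ (fun u => Z (c + u)) u ∧ Z (c + u) ≠ 0 ∧
            ‖Z (c + u)‖ ≤ Real.exp (K * Real.log t) := by
        intro u hu1 hu2 hu3
        have hu4 := abs_le.mp hu3
        refine ⟨?_, ?_, ?_⟩
        · exact (hC.diffZ (c + u)).comp u ((differentiableAt_const c).add differentiableAt_id)
        · apply hno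
          · rw [hcre]
            linarith
          · rw [hcim, hsim, abs_le]
            constructor <;> linarith
        · have e1 : c + u = 1 / 2 + (I * t + (c + u - 1 / 2 - I * t)) := by ring
          have e2 : ‖c + u - 1 / 2 - I * t‖ ≤ R + 30 := by
            refine (Complex.norm_le_abs_re_add_abs_im _).trans ?_
            have r1 : (c + u - 1 / 2 - I * t).re = 2 * e + u.re := by
              have := hcre u
              simp only [sub_re, this, mul_re, I_re, I_im, ofReal_re, ofReal_im]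
              norm_num
              ring
            have r2 : (c + u - 1 / 2 - I * t).im = z.im + u.im := by
              have := hcim u
              simp only [sub_im, this, mul_im, I_re, I_im, ofReal_re, ofReal_im, hsim]
              norm_num
              ring
            rw [r1, r2]
            have q1 : |2 * e + u.re| ≤ 11 := by rw [abs_le]; constructor <;> linarith
            have q2 : |z.im + u.im| ≤ R + 10 := by rw [abs_le]; constructor <;> linarith
            linarith
          rw [e1]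
          refine (hgro t _ g1 e2).trans ?_
          rw [Real.rpow_def_of_pos ht0, mul_comm]
      have P2 : ∀ u : ℂ, 3 / 2 ≤ u.re → u.re ≤ 10 → |u.im| ≤ 10 →
          Real.exp (-(ε1 * Real.log t)) ≤ ‖Z (c + u)‖ ∧
            ‖Z (c + u)‖ ≤ Real.exp (ε1 * Real.log t) := by
        intro u hu1 hu2 hu3
        obtain ⟨b1, b2, -⟩ := hrgt (c + u) (by rw [hcre]; linarith)
        constructor
        · refine le_trans ?_ b1
          rw [← Real.le_log_iff_exp_le hc1]
          linarith
        · refine b2.trans ?_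
          rw [← Real.log_le_iff_le_exp hK1]
          exact a2
      have key := hS (Real.log t) (fun u => Z (c + u)) a5 P1 P2
        ((z.re - 2 * e : ℝ) : ℂ)
        (by
          rw [Complex.ofReal_re]
          linarith)
        (by rw [Complex.ofReal_re]; linarith)
        (by rw [Complex.ofReal_im, abs_zero]; norm_num)
      have hlog : logDeriv (fun u => Z (c + u)) ((z.re - 2 * e : ℝ) : ℂ) =
          logDeriv Z s := by
        rw [logDeriv_apply, logDeriv_apply, deriv_comp_const_add, hsc]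
      rw [hlog] at key
      exact key.1
    · push Not at hbig
      obtain ⟨-, -, b3⟩ := hrgt s (by rw [hsre]; linarith)
      exact b3.trans a3
  obtain ⟨b1, b2, b3, -, -⟩ := hgam t z g2 hz2
  have him : 0 < (I * t + z : ℂ).im := by
    have : (I * t + z : ℂ).im = t + z.im := by simp
    rw [this]; linarith
  obtain ⟨d1, d2⟩ := ld_X hC him b1 b2 (by rw [← hs]; exact hZs)
  refine ⟨d1, ?_⟩
  rw [d2, ← hs]
  have e1 : logDeriv H (I * t + z) + logDeriv Z s - ((κ * Real.log t : ℝ) : ℂ) =
      (logDeriv H (I * t + z) - ((κ * Real.log t : ℝ) : ℂ)) + logDeriv Z s := by ring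
  rw [e1]
  refine (norm_add_le _ _).trans ?_
  have : 0 < η * Real.log t := by positivity
  linarith

end Pool.Agent.Y660.GL
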