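import Pool.Agent.Y671.LD.SpecH
import Pool.Agent.W186.LH.Fac

set_option autoImplicit false

/-!
# Zeros of the heat flow in unit windows (GD2H-UNIT, helper660; port of `Pool.Agent.W114.SDUnit`)
-/

namespace Pool.Agent.Y660.LD

open Complex Filter Topology MeasureTheory Set
open Pool.Agent.Y671.LD
open Pool.Agent.H24R2.JP (Om)
open Pool.Agent.H24R2.DZ (ra NN)
open Pool.Agent.W186.SD (UU NG Grow)
open Pool.Agent.W186.LH (single ord_of)

/-- transfer of orders (copied from `Pool.Agent.W186.LH.Bwz`) -/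
lemma ord_tr' {G E : ℂ → ℂ} (hG : Differentiable ℂ G) (hne : ∃ u, G u ≠ 0) {a b : ℂ} (ha : a ≠ 0)
    (hE : Differentiable ℂ E) (hE0 : ∀ u, E u ≠ 0) (u0 : ℂ) :
    analyticOrderNatAt (fun u => G (a * u + b) * E u) u0 = analyticOrderNatAt G (a * u0 + b) := by
  obtain ⟨h, hh, hh0, hGh⟩ := single hG hne (a * u0 + b)
  obtain ⟨n, hn⟩ : ∃ n : ℕ, n = analyticOrderNatAt G (a * u0 + b) := ⟨_, rfl⟩
  rw [← hn] at hGh ⊢
  have hc : Differentiable ℂ fun u : ℂ => a * u + b := by fun_prop
  refine ord_of (h := fun u => a ^ n * h (a * u + b) * E u) ?_ ?_ ?_ fun u => ?_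
  · exact (hG.comp hc).mul hE
  · exact ((hh.comp hc).const_mul (a ^ n)).mul hE
  · exact mul_ne_zero (mul_ne_zero (pow_ne_zero _ ha) hh0) (hE0 _)
  · rw [hGh]
    have : a * u + b - (a * u0 + b) = a * (u - u0) := by ring
    rw [this, mul_pow]
    ring

lemma Om_double {t t' : ℝ} (ht : 0 < t') (h : t' ≤ 2 * t) : Om t' ≤ Om t + 1 := by
  have ht0 : 0 < t := by linarith
  unfold Om
  have h1 : Real.log t' ≤ Real.log (2 * t) := Real.log_le_log ht h
  rw [Real.log_mul two_ne_zero ht0.ne'] at h1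
  have h2 := Real.log_two_lt_d9
  linarith

lemma fin_cmp {p q s h Y : ℝ} (hh : 0 ≤ h) (hl : Real.exp q * h ≤ Y) (hp : p ≤ q + s) :
    Real.exp p * h ≤ Y * Real.exp s := by
  refine le_trans ?_ (mul_le_mul_of_nonneg_right hl (Real.exp_pos s).le)
  calc Real.exp p * h ≤ Real.exp (q + s) * h := by gcongr
    _ = _ := by rw [Real.exp_add]; ring

/-- The normalised local situation at a large scale holds unconditionally. -/
lemma ng {B : ℝ} {F : ℂ → ℂ} {FT : ℝ → ℂ → ℂ} {h : ℝ → ℝ} (hH : HD B F FT h) (X η : ℝ)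
    (hX : 0 < X) (hη : 0 < η) : ∃ r0 : ℝ, 1000 ≤ r0 ∧ ∀ r : ℝ, r0 ≤ r → ∃ T0 : ℝ, 400 ≤ T0 ∧
    ∀ t τ : ℝ, T0 ≤ t → 0 < τ → 2 * τ * Om t ≤ X →
      NG (1 / 2) (r * Om t) (r ^ 2 / (4 * τ)) η (fun z => F (I * t + r * z)) := by
  obtain ⟨K1, T1, hK1, hT1, hh⟩ := hH.line
  obtain ⟨K2, T2, hK2, hT2, hx⟩ := hH.up
  obtain ⟨R0, K4, hR0, hK4, hlow⟩ := hH.lowr
  have hB1 := hH.B_ge
  have hB2 := hH.B_le
  refine ⟨max 1000 (max R0 (80 * K2)), le_max_left _ _, ?_⟩
  intro r hr
  have hr1 : 1000 ≤ r := (le_max_left _ _).trans hr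
  have hr2 : R0 ≤ r := ((le_max_left _ _).trans (le_max_right _ _)).trans hr
  have hr3 : 80 * K2 ≤ r := ((le_max_right _ _).trans (le_max_right _ _)).trans hr
  obtain ⟨T5, hT5, hlow⟩ := hlow r hr2
  obtain ⟨K3, T3, hT3, hd⟩ := hH.ld (20 * r)
  obtain ⟨D, hD⟩ : ∃ D : ℝ, D = 40 * (2 * K2 + 20 * K1 + (1 + K2) + 2 * K4) := ⟨_, rfl⟩
  obtain ⟨L0, hL0⟩ : ∃ L0 : ℝ, L0 = max (max (K3 / η) D) (max (512 * X * K2) (1 + K2)) := ⟨_, rfl⟩
  obtain ⟨T4, hT4⟩ := Filter.eventually_atTop.1 (Real.tendsto_log_atTop.eventually_ge_atTop (2 * L0))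
  refine ⟨max (max (T1 + T5) (T2 + 20 * r)) (max (max T3 T4) (2000 * r)),
    le_trans (by linarith) ((le_max_right _ _).trans (le_max_right _ _)), ?_⟩
  intro t τ ht hτ h2
  have g1 : T1 + T5 ≤ t := ((le_max_left _ _).trans (le_max_left _ _)).trans ht
  have g2 : T2 + 20 * r ≤ t := ((le_max_right _ _).trans (le_max_left _ _)).trans ht
  have g3 : T3 ≤ t := ((le_max_left _ _).trans ((le_max_left _ _).trans (le_max_right _ _))).trans ht
  have g4 : T4 ≤ t := ((le_max_right _ _).trans ((le_max_left _ _).trans (le_max_right _ _))).trans ht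
  have g5 : 2000 * r ≤ t := ((le_max_right _ _).trans (le_max_right _ _)).trans ht
  have ht0 : 0 < t := by linarith
  have hL : L0 ≤ Om t := by
    have := hT4 t g4
    unfold Om
    linarith
  obtain ⟨L, hLe⟩ : ∃ L : ℝ, L = Om t := ⟨_, rfl⟩
  rw [← hLe] at hL
  have l1 : K3 / η ≤ L := (((le_max_left _ _).trans (le_max_left _ _)).trans hL0.ge).trans hL
  have l2 : D ≤ L := (((le_max_right _ _).trans (le_max_left _ _)).trans hL0.ge).trans hL
  have l3 : 512 * X * K2 ≤ L := (((le_max_left _ _).trans (le_max_right _ _)).trans hL0.ge).trans hL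
  have l4 : 1 + K2 ≤ L := (((le_max_right _ _).trans (le_max_right _ _)).trans hL0.ge).trans hL
  rw [div_le_iff₀ hη] at l1
  have hLp : 0 < L := by linarith
  have hr0 : 0 < r := by linarith
  have hHp : 0 < h t := hH.h_pos t
  -- lower bound at `1`
  have low : Real.exp ((L - K4) * r - K4) * h t ≤ ‖F (I * t + r * 1)‖ := by
    have := hlow t (by linarith)
    rw [mul_comm (h t), ← hLe] at this
    rw [mul_one]
    exact this
  -- comparison of `h` on the line
  have hline : ∀ y : ℝ, |y| ≤ 20 → h (t + r * y) ≤ Real.exp (20 * K1 * r) * h t := by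
    intro y hy
    have hn : |r * y| ≤ 20 * r := by
      rw [abs_mul, abs_of_pos hr0]
      linarith [mul_le_mul_of_nonneg_left hy hr0.le]
    have q5 := hh t (r * y) (by linarith) (by linarith)
    refine q5.trans ?_
    rw [mul_comm]
    apply mul_le_mul_of_nonneg_right _ hHp.le
    rw [Real.exp_le_exp]
    have := mul_le_mul_of_nonneg_left hn (show 0 ≤ K1 by linarith)
    linarith
  have hpt : ∀ z : ℂ, I * (t : ℂ) + r * z = I * ((t + r * z.im : ℝ) : ℂ) + ((r * z.re : ℝ) : ℂ) := by
    intro z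
    apply Complex.ext <;> simp
  have hD1 : 40 * (2 * K2 + 20 * K1 + (1 + K2) + 2 * K4) ≤ L := hD ▸ l2
  have hKr : 0 < K1 * r := by positivity
  have hKr2 : 0 < K2 * r := by positivity
  -- the main inequality
  have main : 2 * K2 * L + 2 * K2 + 20 * K1 * r + (1 + K2) * r + 2 * K4 * r ≤ L * r / 20 := by
    have m1 : 80 * K2 * L ≤ r * L := mul_le_mul_of_nonneg_right hr3 hLp.le
    have m2 := mul_le_mul_of_nonneg_right hD1 hr0.le
    have m3 : 2 * K2 ≤ 2 * K2 * r := le_mul_of_one_le_right (by linarith) (by linarith)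
    linarith
  have hK4r : K4 ≤ K4 * r := le_mul_of_one_le_right (by linarith) (by linarith)
  have hKL : 0 < K2 * L := by positivity
  -- the bound for moderate real part
  have upp : ∀ z : ℂ, |z.im| ≤ 20 → |r * z.re| ≤ (t + r * z.im) / 16 →
      ‖F (I * t + r * z)‖ ≤
        Real.exp (K2 * (2 * L + 2) + 20 * K1 * r + (L + 1 + K2) * (r * |z.re|)) * h t := by
    intro z hz hz2
    rw [abs_le] at hz
    have hzr : |r * z.im| ≤ 20 * r := by
      rw [abs_mul, abs_of_pos hr0]
      linarith [mul_le_mul_of_nonneg_left (abs_le.2 hz) hr0.le]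
    rw [abs_le] at hzr
    have ht' : T2 ≤ t + r * z.im := by linarith
    have ht'0 : 0 < t + r * z.im := by linarith
    have ht'2 : t + r * z.im ≤ 2 * t := by linarith
    obtain ⟨q1, -⟩ := hx (t + r * z.im) ((r * z.re : ℝ) : ℂ) ht' (by simp)
    have q1' := q1 (by rw [Complex.ofReal_re]; exact hz2)
    rw [← hpt, Complex.ofReal_re, abs_mul, abs_of_pos hr0] at q1'
    refine q1'.trans ?_
    have h3 := hline z.im (abs_le.2 hz)
    have h4 := Om_double ht'0 ht'2
    rw [← hLe] at h4
    have h5 : Real.log (t + r * z.im) ≤ 2 * L + 2 := by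
      have : Om (t + r * z.im) = Real.log (t + r * z.im) / 2 := rfl
      linarith
    have h6 : 0 ≤ r * |z.re| := by positivity
    calc Real.exp (K2 * Real.log (t + r * z.im)) * h (t + r * z.im) *
          Real.exp ((Om (t + r * z.im) + K2) * (r * |z.re|))
        ≤ Real.exp (K2 * (2 * L + 2)) * (Real.exp (20 * K1 * r) * h t) *
          Real.exp ((L + 1 + K2) * (r * |z.re|)) := by
          gcongr
          exact (hH.h_pos _).le
      _ = _ := by
          rw [Real.exp_add (K2 * (2 * L + 2) + 20 * K1 * r), Real.exp_add (K2 * (2 * L + 2))]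
          ring
  refine ⟨?_, ?_, ?_, ?_, ?_⟩
  · exact hH.diff.comp (by fun_prop)
  · intro z
    have e : I * (t : ℂ) + r * (-(starRingEnd ℂ) z) = -((starRingEnd ℂ) (I * t + r * z)) := by
      rw [map_add, map_mul, map_mul, Complex.conj_I, Complex.conj_ofReal, Complex.conj_ofReal]
      ring
    rw [e, hH.symm]
  · intro z hz1 hz2
    have hn : ‖(r : ℂ) * z‖ ≤ 20 * r := by
      rw [norm_mul, Complex.norm_real, Real.norm_eq_abs, abs_of_pos hr0]
      linarith [mul_le_mul_of_nonneg_left hz2 hr0.le]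
    obtain ⟨q3, q4⟩ := hd t (r * z) g3 hn (by
      rw [Complex.re_ofReal_mul]
      have := mul_le_mul_of_nonneg_left hz1 hr0.le
      linarith)
    refine ⟨q3, ?_⟩
    have hXd : DifferentiableAt ℂ F (I * t + r * z) := hH.diff _
    have hc : HasDerivAt (fun z : ℂ => I * (t : ℂ) + r * z) r z := by
      simpa using ((hasDerivAt_id z).const_mul (r : ℂ)).const_add (I * (t : ℂ))
    have e : logDeriv (fun z : ℂ => F (I * t + r * z)) z = r * logDeriv F (I * t + r * z) := by
      have h := HasDerivAt.comp z hXd.hasDerivAt hc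
      rw [logDeriv_apply, logDeriv_apply]
      have h' : deriv (fun z : ℂ => F (I * t + r * z)) z = deriv F (I * t + r * z) * r := h.deriv
      rw [h']
      ring
    have e2 : (r : ℂ) * logDeriv F (I * t + r * z) - ((r * Om t : ℝ) : ℂ) =
        r * (logDeriv F (I * t + r * z) - (Om t : ℂ)) := by
      push_cast
      ring
    rw [e, e2, norm_mul, Complex.norm_real, Real.norm_eq_abs, abs_of_pos hr0, ← hLe]
    rw [← hLe] at q4
    have : r * ‖logDeriv F (I * t + r * z) - (L : ℂ)‖ ≤ r * K3 :=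
      mul_le_mul_of_nonneg_left q4 hr0.le
    have h7 := mul_le_mul_of_nonneg_left l1 hr0.le
    linarith
  · intro z hz1 hz2
    have h3 : |z.im| ≤ 20 := (Complex.abs_im_le_norm z).trans hz2
    have h4 := abs_le.1 h3
    have h5 : |r * z.re| ≤ (t + r * z.im) / 16 := by
      rw [abs_mul, abs_of_pos hr0]
      have q1 := mul_le_mul_of_nonneg_left hz1 hr0.le
      have q2 := mul_le_mul_of_nonneg_left h4.1 hr0.le
      linarith
    refine (upp z h3 h5).trans (fin_cmp hHp.le low ?_)
    rw [← hLe]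
    have h6 : (L + 1 + K2) * (r * |z.re|) ≤ (L + 1 + K2) * (r * (1 / 20)) := by
      have : |z.re| ≤ 1 / 20 := by linarith
      gcongr
    linarith
  · intro z hz1 hz2
    have h3 : |z.im| ≤ 20 := by linarith
    have h4 := abs_le.1 h3
    obtain ⟨x, hxe⟩ : ∃ x : ℝ, x = |z.re| := ⟨_, rfl⟩
    rw [← hxe] at hz2 ⊢
    have hgp : 0 ≤ r ^ 2 / (4 * τ) / 64 * (x - 16) ^ 2 := by positivity
    have hLr : 0 < L * r := by positivity
    rcases le_or_gt |r * z.re| ((t + r * z.im) / 16) with h5 | h5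
    · refine (upp z h3 h5).trans (fin_cmp hHp.le low ?_)
      rw [← hLe, ← hxe]
      have h6 : (1 + K2) * (r * x) ≤ L * (r * x) := by
        apply mul_le_mul_of_nonneg_right l4 (by positivity)
      linarith
    · have hzr : |r * z.im| ≤ 20 * r := by
        rw [abs_mul, abs_of_pos hr0]
        linarith [mul_le_mul_of_nonneg_left h3 hr0.le]
      rw [abs_le] at hzr
      have ht' : T2 ≤ t + r * z.im := by linarith
      obtain ⟨-, q2⟩ := hx (t + r * z.im) ((r * z.re : ℝ) : ℂ) ht' (by simp)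
      have q2' := q2 (by rw [Complex.ofReal_re]; exact h5.le)
      rw [← hpt, Complex.ofReal_re] at q2'
      refine q2'.trans ?_
      rw [abs_mul, abs_of_pos hr0, ← hxe] at h5 ⊢
      have h6 : t / 32 ≤ r * x := by linarith
      have h7 : 32 ≤ x := by
        have : 32 * r ≤ x * r := by linarith
        exact le_of_mul_le_mul_right this hr0
      have hrx : 1 ≤ r * x := by
        have : r * 1 ≤ r * x := mul_le_mul_of_nonneg_left (by linarith) hr0.le
        linarith
      have h8 : (r * x) ^ (7 / 4 : ℝ) ≤ (r * x) ^ (2 : ℕ) := by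
        rw [← Real.rpow_natCast]
        apply Real.rpow_le_rpow_of_exponent_le hrx
        norm_num
      have h9 : r ^ 2 * L / (2 * X) ≤ r ^ 2 / (4 * τ) := by
        rw [div_le_div_iff₀ (by positivity) (by positivity)]
        have h13 : 0 < r ^ 2 := by positivity
        rw [← hLe] at h2
        have h14 := mul_le_mul_of_nonneg_left h2 h13.le
        linarith
      have h10 : x ^ 2 / 4 ≤ (x - 16) ^ 2 := by
        have h101 : x / 2 ≤ x - 16 := by linarith
        calc x ^ 2 / 4 = (x / 2) ^ 2 := by ring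
          _ ≤ (x - 16) ^ 2 := by gcongr
      have h11 : K2 * (r * x) ^ 2 ≤ r ^ 2 / (4 * τ) / 64 * (x - 16) ^ 2 := by
        calc K2 * (r * x) ^ 2 = K2 * (512 * X) / (512 * X) * (r * x) ^ 2 := by field_simp
          _ ≤ L / (512 * X) * (r * x) ^ 2 := by
              gcongr
              linarith
          _ = r ^ 2 * L / (2 * X) / 64 * (x ^ 2 / 4) := by field_simp; ring
          _ ≤ _ := by gcongr
      have h12 := hline z.im h3
      calc h (t + r * z.im) * Real.exp (K2 * (r * x) ^ (7 / 4 : ℝ))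
          ≤ (Real.exp (20 * K1 * r) * h t) * Real.exp (r ^ 2 / (4 * τ) / 64 * (x - 16) ^ 2) := by
            have : K2 * (r * x) ^ (7 / 4 : ℝ) ≤ K2 * (r * x) ^ 2 :=
              mul_le_mul_of_nonneg_left h8 (by linarith)
            exact mul_le_mul h12 (Real.exp_le_exp.2 (this.trans h11)) (Real.exp_pos _).le (by positivity)
        _ = Real.exp (20 * K1 * r + r ^ 2 / (4 * τ) / 64 * (x - 16) ^ 2) * h t := by
            rw [Real.exp_add]; ring
        _ ≤ _ := by
            refine fin_cmp hHp.le low ?_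
            rw [← hLe]
            have h13 : 0 ≤ 2 * (r * L) * x := by positivity
            linarith

theorem unit (h1 : Pool.Agent.W186.SD.S_CNT) (h2 : SH_REL) : SH_UNIT := by
  intro B F FT h hH X hX
  obtain ⟨η, C, a0, hη, hC, ha0, hc⟩ := h1
  obtain ⟨r0, hr0', hng⟩ := ng hH X η hX hη
  obtain ⟨r, hr⟩ : ∃ r : ℝ, r = max r0 (max X a0) := ⟨_, rfl⟩
  have hr1 : r0 ≤ r := by rw [hr]; exact le_max_left _ _
  have hr2 : X ≤ r := by rw [hr]; exact (le_max_left _ _).trans (le_max_right _ _)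
  have hr3 : a0 ≤ r := by rw [hr]; exact (le_max_right _ _).trans (le_max_right _ _)
  have hr0 : 0 < r := by linarith
  have hB2 := hH.B_le
  obtain ⟨T0, hT0, hng⟩ := hng r hr1
  refine ⟨C * r, T0, by positivity, by linarith, ?_⟩
  intro t τ ht hτ hτX S hS
  have ht0 : 0 < t := by linarith
  have hlog : 2 ≤ Real.log t := by
    rw [Real.le_log_iff_exp_le ht0]
    have h4 : Real.exp 2 = Real.exp 1 * Real.exp 1 := by rw [← Real.exp_add]; norm_num
    have := Real.exp_one_lt_d9
    have h5 := Real.exp_pos 1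
    nlinarith
  have hOm : 1 ≤ Om t := by unfold Om; linarith
  have hN := hng t τ ht hτ hτX
  by_cases hne : ∃ u, FT τ u ≠ 0
  · obtain ⟨c, hce⟩ : ∃ c : ℂ, c = ((r / (2 * Real.sqrt (Real.pi * τ)) : ℝ) : ℂ) := ⟨_, rfl⟩
    have hc0 : c ≠ 0 := by
      rw [hce, Complex.ofReal_ne_zero]
      have := Real.pi_pos
      positivity
    have hrc : (r : ℂ) ≠ 0 := by exact_mod_cast hr0.ne'
    have hU : UU (r ^ 2 / (4 * τ)) (fun z => F (I * t + r * z)) = fun u => FT τ (r * u + I * t) * c⁻¹ := by
      funext u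
      have := h2 B F FT h hH τ r t u hτ hr0
      rw [add_comm, this, ← hce]
      field_simp
    have hX1 : Differentiable ℂ (FT τ) := hH.heatd τ hτ.le
    have hord : ∀ u : ℂ, analyticOrderNatAt (UU (r ^ 2 / (4 * τ)) (fun z => F (I * t + r * z))) u =
        analyticOrderNatAt (FT τ) (r * u + I * t) := by
      intro u
      rw [hU]
      exact ord_tr' (G := FT τ) (E := fun _ => c⁻¹) hX1 hne hrc (b := I * t)
        (by fun_prop) (fun _ => inv_ne_zero hc0) u
    classical
    have hinv : ∀ w : ℂ, (r : ℂ) * ((w - I * t) / r) + I * t = w := by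
      intro w
      field_simp
      ring
    have hinj : Set.InjOn (fun w : ℂ => (w - I * t) / r) (S : Set ℂ) := by
      intro a _ b _ hab
      simp only at hab
      rw [← hinv a, hab, hinv]
    have key := hc (r * Om t) (r ^ 2 / (4 * τ)) (fun z => F (I * t + r * z)) (by nlinarith) (by
      rw [div_le_div_iff₀ two_pos (by positivity)]
      nlinarith) hN (S.image fun w => (w - I * t) / r) (by
        intro z hz
        rw [Finset.mem_image] at hz
        obtain ⟨w, hw, rfl⟩ := hz
        obtain ⟨w1, w2⟩ := hS w hw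
        have w3 := hH.strip τ w hτ.le w2
        refine ⟨?_, ?_⟩
        · rw [norm_div, Complex.norm_real, Real.norm_eq_abs, abs_of_pos hr0, div_le_iff₀ hr0]
          have h5 := Complex.norm_le_abs_re_add_abs_im (w - I * t)
          have e1 : (w - I * t).re = w.re := by simp
          have e2 : (w - I * t).im = w.im - t := by simp
          rw [e1, e2] at h5
          linarith
        · rw [hU]
          simp only
          rw [hinv, w2, zero_mul])
    rw [Finset.sum_image hinj] at key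
    have hsum : ∑ w ∈ S, (analyticOrderNatAt (UU (r ^ 2 / (4 * τ)) (fun z => F (I * t + r * z)))
        ((w - I * t) / r) : ℝ) = ∑ w ∈ S, (analyticOrderNatAt (FT τ) w : ℝ) := by
      refine Finset.sum_congr rfl fun w _ => ?_
      rw [hord, hinv]
    rw [hsum] at key
    refine key.trans ?_
    unfold Om
    have : 0 ≤ C * r * Real.log t := by positivity
    nlinarith
  · push Not at hne
    have h0 : FT τ = fun _ => 0 := funext hne
    have : ∀ s ∈ S, (analyticOrderNatAt (FT τ) s : ℝ) = 0 := by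
      intro s _
      rw [h0]
      have : analyticOrderAt (fun _ : ℂ => (0 : ℂ)) s = ⊤ := by
        rw [analyticOrderAt_eq_top]
        exact Filter.Eventually.of_forall fun _ => rfl
      unfold analyticOrderNatAt
      rw [this]
      simp
    rw [Finset.sum_eq_zero this]
    positivity

end Pool.Agent.Y660.LD
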